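import Mathlib
import Pool.Agent.H75.L.W988.WD.Defs

/-! # WD-ABS: absorption by projections which contain infinitely many copies -/

set_option autoImplicit false
set_option maxHeartbeats 4000000
open scoped InnerProductSpace Topology
open Filter

namespace Pool.Agent.W85.WDX

open Pool.Agent.W988.WD

section

variable {H : Type} [NormedAddCommGroup H] [InnerProductSpace ℂ H] [CompleteSpace H]

theorem pi_mul {s r : H →L[ℂ] H} (hr : Prj r) (h : star s * s = r) : s * r = s := by
  have h1 : star (s - s * r) * (s - s * r) = 0 := by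
    rw [star_sub, star_mul, hr.1]
    have e : (star s - r * star s) * (s - s * r)
        = star s * s - (star s * s) * r - r * (star s * s) + r * (star s * s) * r := by noncomm_ring
    rw [e, h, hr.2, hr.2]
    abel
  have h2 := (CStarRing.star_mul_self_eq_zero_iff _).1 h1
  exact (sub_eq_zero.1 h2).symm

theorem pi_star {s r : H →L[ℂ] H} (hr : Prj r) (h : star s * s = r) : r * star s = star s := by
  have := congrArg star (pi_mul hr h)
  rwa [star_mul, hr.1] at this

theorem st {a b : H →L[ℂ] H} (ha : star a = a) (h : a * b = b) : star b * a = star b := by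
  have := congrArg star h
  rwa [star_mul, ha] at this

/-- orthogonal copies of `r` below `q` -/
def Sys (N : VonNeumannAlgebra H) (q r : H →L[ℂ] H) (J : Set (H →L[ℂ] H)) : Prop :=
  (∀ s ∈ J, s ∈ N ∧ star s * s = r ∧ q * s = s) ∧ ∀ s ∈ J, ∀ s' ∈ J, s ≠ s' → star s * s' = 0

theorem sys_max (N : VonNeumannAlgebra H) (q r : H →L[ℂ] H) :
    ∃ J, Sys N q r J ∧ ∀ J', Sys N q r J' → J ⊆ J' → J' = J := by
  obtain ⟨J, hJ⟩ := zorn_subset {J | Sys N q r J} (by
    intro c hc hchain
    refine ⟨⋃₀ c, ⟨?_, ?_⟩, fun s hs => Set.subset_sUnion_of_mem hs⟩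
    · rintro s ⟨J, hJ, hs⟩
      exact (hc hJ).1 s hs
    · rintro s ⟨J, hJ, hs⟩ s' ⟨J', hJ', hs'⟩ hne
      rcases hchain.total hJ hJ' with h | h
      · exact (hc hJ').2 s (h hs) s' hs' hne
      · exact (hc hJ).2 s hs s' (h hs') hne)
  exact ⟨J, hJ.prop, fun J' hJ' hsub => (hJ.eq_of_subset hJ' hsub).symm⟩

theorem sys_count [TopologicalSpace.SeparableSpace H] {N : VonNeumannAlgebra H}
    {q r : H →L[ℂ] H} {J : Set (H →L[ℂ] H)} (hr : Prj r) (hr0 : r ≠ 0) (hJ : Sys N q r J) :
    J.Countable := by
  obtain ⟨x, hx⟩ : ∃ x, r x ≠ 0 := by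
    by_contra h
    push Not at h
    exact hr0 (ContinuousLinearMap.ext h)
  set ξ := ((‖r x‖ : ℂ)⁻¹) • r x with hξ
  have hnx : (‖r x‖ : ℂ) ≠ 0 := by exact_mod_cast norm_ne_zero_iff.2 hx
  have hrξ : r ξ = ξ := by
    rw [hξ, map_smul]
    congr 1
    exact congrArg (fun T : H →L[ℂ] H => T x) hr.2
  have hξn : ‖ξ‖ = 1 := by
    rw [hξ, norm_smul, norm_inv, Complex.norm_real, norm_norm, inv_mul_cancel₀]
    exact norm_ne_zero_iff.2 hx
  have hin : ∀ s s' : H →L[ℂ] H, ⟪s ξ, s' ξ⟫_ℂ = ⟪ξ, (star s * s') ξ⟫_ℂ := by
    intro s s'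
    rw [mul_apply_eq_comp, ContinuousLinearMap.star_eq_adjoint,
      ContinuousLinearMap.adjoint_inner_right]
  have hnorm : ∀ s ∈ J, ‖s ξ‖ = 1 := by
    intro s hs
    have h1 := hin s s
    rw [(hJ.1 s hs).2.1, hrξ, inner_self_eq_norm_sq_to_K, inner_self_eq_norm_sq_to_K, hξn] at h1
    have h2 : ‖s ξ‖ ^ 2 = 1 := by
      have : ((‖s ξ‖ ^ 2 : ℝ) : ℂ) = ((1 : ℝ) : ℂ) := by
        push_cast
        simpa using h1
      exact_mod_cast this
    have h3 := norm_nonneg (s ξ)
    nlinarith
  have hdist : ∀ s ∈ J, ∀ s' ∈ J, s ≠ s' → 1 < dist (s ξ) (s' ξ) := by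
    intro s hs s' hs' hne
    have h1 : ⟪s ξ, s' ξ⟫_ℂ = 0 := by
      rw [hin, hJ.2 s hs s' hs' hne]; simp
    have h2 := norm_sub_sq (𝕜 := ℂ) (s ξ) (s' ξ)
    rw [h1, hnorm s hs, hnorm s' hs'] at h2
    simp only [map_zero, mul_zero, sub_zero] at h2
    rw [dist_eq_norm]
    have h3 := norm_nonneg (s ξ - s' ξ)
    nlinarith
  refine Set.PairwiseDisjoint.countable_of_isOpen (s := fun s : H →L[ℂ] H => Metric.ball (s ξ) (1 / 2))
    ?_ (fun s _ => Metric.isOpen_ball) (fun s _ => Metric.nonempty_ball.2 (by norm_num))
  intro s hs s' hs' hne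
  refine Metric.ball_disjoint_ball ?_
  have := hdist s hs s' hs' hne
  linarith

theorem p_ABS (h1 : S_ZSUM) (h2 : S_CMP) : S_ABS := by
  intro H _ _ _ _ N hN p hp q hq r hr hPp hPq hPr hr0 w hwN hwr hwo hpw
  obtain ⟨J, hJ, hmax⟩ := sys_max N q r
  have hcount := sys_count hPr hr0 hJ
  -- the projection `T`
  have hsr : ∀ s ∈ J, s * r = s := fun s hs => pi_mul hPr (hJ.1 s hs).2.1
  have hrs : ∀ s ∈ J, r * star s = star s := fun s hs => pi_star hPr (hJ.1 s hs).2.1
  have hsq : ∀ s ∈ J, star s * q = star s := fun s hs => st hPq.1 (hJ.1 s hs).2.2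
  have hss : ∀ s ∈ J, s * star s * (s * star s) = s * star s := by
    intro s hs
    calc s * star s * (s * star s) = s * (star s * s) * star s := by noncomm_ring
      _ = s * star s := by rw [(hJ.1 s hs).2.1, hsr s hs]
  have hsso : ∀ s ∈ J, ∀ s' ∈ J, s ≠ s' → s * star s * (s' * star s') = 0 := by
    intro s hs s' hs' hne
    calc s * star s * (s' * star s') = s * (star s * s') * star s' := by noncomm_ring
      _ = 0 := by rw [hJ.2 s hs s' hs' hne]; simp
  obtain ⟨T, hTN, hT0, hT1, hT2, hT3, hT4⟩ := h1 H N J (fun s => (s : H →L[ℂ] H) * star (s : H →L[ℂ] H))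
    (fun s => mul_mem (hJ.1 s s.2).1 (star_mem (hJ.1 s s.2).1))
    (fun s => by
      simp only [star_mul, star_star]
      rw [hss s s.2, hss s s.2])
    (fun s s' hne => by
      simp only [star_mul, star_star]
      exact hsso s s.2 s' s'.2 (fun h => hne (Subtype.ext h)))
    (fun s s' hne => by
      simp only [star_mul, star_star]
      exact hsso s s.2 s' s'.2 (fun h => hne (Subtype.ext h)))
  simp only [star_mul, star_star, Subtype.forall] at hT1 hT2 hT3 hT4
  have hT1' : ∀ s ∈ J, T * (s * star s) = s * star s := by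
    intro s hs
    have := hT1 s hs
    rwa [hss s hs] at this
  have hT2' : ∀ s ∈ J, s * star s * T = s * star s := by
    intro s hs
    have := hT2 s hs
    rwa [hss s hs] at this
  have hTT : T * T = T := by
    ext ξ
    have h3 := hT3 (ξ - T ξ) (fun s hs => by
      have := congrArg (fun X : H →L[ℂ] H => X ξ) (hT2' s hs)
      simp only [mul_apply_eq_comp, map_sub] at this ⊢
      rw [this, sub_self])
    rw [map_sub, sub_eq_zero] at h3
    exact h3.symm
  have hTs : T * star T = T := by
    ext ξ
    have h3 := hT3 (ξ - star T ξ) (fun s hs => by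
      have h4 := congrArg star (hT1' s hs)
      simp only [star_mul, star_star] at h4
      have := congrArg (fun X : H →L[ℂ] H => X ξ) h4
      simp only [mul_apply_eq_comp, map_sub] at this ⊢
      rw [this, sub_self])
    rw [map_sub, sub_eq_zero] at h3
    exact h3.symm
  have hTsa : star T = T := by
    have := congrArg star hTs
    rw [star_mul, star_star, hTs] at this
    exact this.symm
  have hTq : T * q = T := by
    ext ξ
    have h3 := hT3 (ξ - q ξ) (fun s hs => by
      have := congrArg (fun X : H →L[ℂ] H => s (X ξ)) (hsq s hs)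
      simp only [mul_apply_eq_comp, map_sub] at this ⊢
      rw [this, sub_self])
    rw [map_sub, sub_eq_zero] at h3
    exact h3.symm
  have hqT : q * T = T := by
    have := congrArg star hTq
    rwa [star_mul, hTsa, hPq.1] at this
  have hTS : ∀ s ∈ J, T * s = s := by
    intro s hs
    have h3 : s = s * star s * s := by
      rw [mul_assoc, (hJ.1 s hs).2.1, hsr s hs]
    calc T * s = T * (s * star s * s) := by rw [← h3]
      _ = (T * (s * star s)) * s := by noncomm_ring
      _ = s * star s * s := by rw [hT1' s hs]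
      _ = s := h3.symm
  obtain ⟨t, ht⟩ : ∃ t, t = q - T := ⟨_, rfl⟩
  have hPt : Prj t := by
    refine ⟨by rw [ht, star_sub, hPq.1, hTsa], ?_⟩
    rw [ht]
    have : (q - T) * (q - T) = q * q - q * T - T * q + T * T := by noncomm_ring
    rw [this, hPq.2, hqT, hTq, hTT]; abel
  have htN : t ∈ N := ht ▸ sub_mem hq hTN
  have hqt : q * t = t := by rw [ht, mul_sub, hPq.2, hqT]
  have htq : t * q = t := by rw [ht, sub_mul, hPq.2, hTq]
  have hts : ∀ s ∈ J, t * s = 0 := by
    intro s hs
    rw [ht, sub_mul, (hJ.1 s hs).2.2, hTS s hs, sub_self]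
  have hst : ∀ s ∈ J, star s * t = 0 := by
    intro s hs
    have := congrArg star (hts s hs)
    rwa [star_mul, hPt.1, star_zero] at this
  -- the remaining part
  obtain ⟨v0, hv0N, hv0, hrv0⟩ : ∃ v ∈ N, star v * v = t ∧ r * v = v := by
    rcases h2 H N hN r hr t htN hPr hPt with h3 | h3
    · exfalso
      obtain ⟨v, hvN, hv1, hv2⟩ := h3
      have hort : ∀ s ∈ J, star s * v = 0 := by
        intro s hs
        calc star s * v = star s * (t * v) := by rw [hv2]
          _ = (star s * t) * v := by noncomm_ring
          _ = 0 := by rw [hst s hs, zero_mul]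
      have hvJ : v ∉ J := by
        intro hv
        have := hort v hv
        rw [hv1] at this
        exact hr0 this
      have hsys : Sys N q r (insert v J) := by
        refine ⟨?_, ?_⟩
        · intro s hs
          rcases Set.mem_insert_iff.1 hs with rfl | hs
          · refine ⟨hvN, hv1, ?_⟩
            calc q * s = q * (t * s) := by rw [hv2]
              _ = (q * t) * s := by noncomm_ring
              _ = s := by rw [hqt, hv2]
          · exact hJ.1 s hs
        · intro s hs s' hs' hne
          rcases Set.mem_insert_iff.1 hs with hsv | hsJ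
          · rcases Set.mem_insert_iff.1 hs' with hsv' | hsJ'
            · exact absurd (hsv.trans hsv'.symm) hne
            · have := congrArg star (hort s' hsJ')
              rw [star_mul, star_star, star_zero] at this
              rw [hsv]; exact this
          · rcases Set.mem_insert_iff.1 hs' with hsv' | hsJ'
            · rw [hsv']; exact hort s hsJ
            · exact hJ.2 s hsJ s' hsJ' hne
      have h4 := hmax _ hsys (Set.subset_insert v J)
      exact hvJ (h4 ▸ Set.mem_insert v J)
    · exact h3
  have hv0t : v0 * t = v0 := pi_mul hPt hv0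
  have htv0 : t * star v0 = star v0 := pi_star hPt hv0
  have hv0r : star v0 * r = star v0 := st hPr.1 hrv0
  have hv0s : ∀ s ∈ J, v0 * s = 0 := by
    intro s hs
    calc v0 * s = v0 * (t * s) := by rw [← mul_assoc, hv0t]
      _ = 0 := by rw [hts s hs, mul_zero]
  have hwr' : ∀ n, w n * r = w n := fun n => pi_mul hPr (hwr n)
  have : Countable J := hcount.to_subtype
  obtain ⟨k, hk⟩ := exists_injective_nat J
  -- the family
  obtain ⟨u, hu⟩ : ∃ u : Option J → (H →L[ℂ] H), u = fun i => match i with
    | none => w 0 * v0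
    | some s => w (k s + 1) * star (s : H →L[ℂ] H) := ⟨_, rfl⟩
  have hu0 : u none = w 0 * v0 := by rw [hu]
  have hus : ∀ s : J, u (some s) = w (k s + 1) * star (s : H →L[ℂ] H) := fun s => by rw [hu]
  have hini0 : star (u none) * u none = t := by
    rw [hu0, star_mul]
    calc star v0 * star (w 0) * (w 0 * v0) = star v0 * (star (w 0) * w 0) * v0 := by noncomm_ring
      _ = star v0 * v0 := by rw [hwr, hv0r]
      _ = t := hv0
  have hinis : ∀ s : J, star (u (some s)) * u (some s) = (s : H →L[ℂ] H) * star (s : H →L[ℂ] H) := by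
    intro s
    rw [hus, star_mul, star_star]
    calc (s : H →L[ℂ] H) * star (w (k s + 1)) * (w (k s + 1) * star (s : H →L[ℂ] H))
        = (s : H →L[ℂ] H) * (star (w (k s + 1)) * w (k s + 1)) * star (s : H →L[ℂ] H) := by
          noncomm_ring
      _ = _ := by rw [hwr, hsr s s.2]
  have huN : ∀ i, u i ∈ N := by
    intro i
    cases i with
    | none => rw [hu0]; exact mul_mem (hwN 0) hv0N
    | some s => rw [hus]; exact mul_mem (hwN _) (star_mem (hJ.1 s s.2).1)
  have hPs : ∀ s ∈ J, Prj (s * star s) := fun s hs => ⟨by rw [star_mul, star_star], hss s hs⟩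
  have hupi : ∀ i, u i * star (u i) * u i = u i := by
    intro i
    cases i with
    | none => rw [mul_assoc, hini0]; exact pi_mul hPt hini0
    | some s => rw [mul_assoc, hinis]; exact pi_mul (hPs s s.2) (hinis s)
  have hwo' : ∀ (a b : H →L[ℂ] H) (m n : ℕ), m ≠ n → star (w m * a) * (w n * b) = 0 := by
    intro a b m n hmn
    rw [star_mul]
    calc star a * star (w m) * (w n * b) = star a * (star (w m) * w n) * b := by noncomm_ring
      _ = 0 := by rw [hwo m n hmn]; simp
  have huo : ∀ i j, i ≠ j → star (u i) * u j = 0 := by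
    intro i j hij
    cases i with
    | none =>
      cases j with
      | none => exact absurd rfl hij
      | some s => rw [hu0, hus]; exact hwo' _ _ _ _ (by omega)
    | some s =>
      cases j with
      | none => rw [hu0, hus]; exact hwo' _ _ _ _ (by omega)
      | some s' =>
        rw [hus, hus]
        refine hwo' _ _ _ _ (fun h => hij ?_)
        have : k s = k s' := by omega
        rw [hk this]
  have huo' : ∀ i j, i ≠ j → u i * star (u j) = 0 := by
    have e1 : ∀ s : J, u none * star (u (some s)) = 0 := by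
      intro s
      rw [hu0, hus, star_mul, star_star]
      calc w 0 * v0 * ((s : H →L[ℂ] H) * star (w (k s + 1)))
          = w 0 * (v0 * (s : H →L[ℂ] H)) * star (w (k s + 1)) := by noncomm_ring
        _ = 0 := by rw [hv0s s s.2]; simp
    intro i j hij
    cases i with
    | none =>
      cases j with
      | none => exact absurd rfl hij
      | some s => exact e1 s
    | some s =>
      cases j with
      | none =>
        have := congrArg star (e1 s)
        rwa [star_mul, star_star, star_zero] at this
      | some s' =>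
        rw [hus, hus, star_mul, star_star]
        have hne : (s : H →L[ℂ] H) ≠ s' := fun h => hij (by rw [Subtype.ext h])
        calc w (k s + 1) * star (s : H →L[ℂ] H) * ((s' : H →L[ℂ] H) * star (w (k s' + 1)))
            = w (k s + 1) * (star (s : H →L[ℂ] H) * (s' : H →L[ℂ] H)) * star (w (k s' + 1)) := by
              noncomm_ring
          _ = 0 := by rw [hJ.2 s s.2 s' s'.2 hne]; simp
  obtain ⟨V, hVN, hV0, hV1, hV2, hV3, hV4⟩ := h1 H N (Option J) u huN hupi huo huo'
  have hpu : ∀ i, p * u i = u i := by
    intro i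
    cases i with
    | none => rw [hu0, ← mul_assoc, hpw]
    | some s => rw [hus, ← mul_assoc, hpw]
  have huq : ∀ i, u i * q = u i := by
    intro i
    cases i with
    | none =>
      rw [hu0, mul_assoc]
      congr 1
      calc v0 * q = v0 * t * q := by rw [hv0t]
        _ = v0 * (t * q) := by noncomm_ring
        _ = v0 := by rw [htq, hv0t]
    | some s => rw [hus, mul_assoc, hsq s s.2]
  have hpV : p * V = V := by
    have h3 : star V * p = star V := by
      ext ξ
      have h4 := hV4 (ξ - p ξ) (fun i => by
        have h5 := congrArg (fun X : H →L[ℂ] H => X ξ) (st hPp.1 (hpu i))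
        simp only [mul_apply_eq_comp] at h5
        rw [map_sub, h5, sub_self])
      rw [map_sub, sub_eq_zero] at h4
      exact h4.symm
    have := congrArg star h3
    rwa [star_mul, star_star, hPp.1] at this
  have hVq : V * q = V := by
    ext ξ
    have h4 := hV3 (ξ - q ξ) (fun i => by
      have h5 := congrArg (fun X : H →L[ℂ] H => X ξ) (huq i)
      simp only [mul_apply_eq_comp] at h5
      rw [map_sub, h5, sub_self])
    rw [map_sub, sub_eq_zero] at h4
    exact h4.symm
  refine ⟨V, hVN, ?_, hpV⟩
  obtain ⟨Q, hQ⟩ : ∃ Q, Q = star V * V := ⟨_, rfl⟩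
  have hQsa : star Q = Q := by rw [hQ, star_mul, star_star]
  have hQq : Q * q = Q := by rw [hQ, mul_assoc, hVq]
  have hQu : ∀ i, Q * (star (u i) * u i) = star (u i) * u i := by
    intro i
    have h3 := congrArg star (hV2 i)
    simp only [star_mul, star_star] at h3
    -- `star V * (u i * star (u i)) = star (u i)`
    calc Q * (star (u i) * u i) = star V * (V * (star (u i) * u i)) := by rw [hQ, mul_assoc]
      _ = star V * u i := by rw [hV1 i]
      _ = star V * (u i * star (u i) * u i) := by rw [hupi i]
      _ = star V * (u i * star (u i)) * u i := by noncomm_ring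
      _ = star (u i) * u i := by rw [h3]
  have hQt : Q * t = t := by
    have := hQu none
    rwa [hini0] at this
  have hQs : ∀ s ∈ J, s * star s * Q = s * star s := by
    intro s hs
    have h3 := hQu (some ⟨s, hs⟩)
    rw [hinis] at h3
    have := congrArg star h3
    simpa [star_mul, hQsa] using this
  have hTQ : T * Q = T := by
    ext ξ
    have h4 := hT3 (ξ - Q ξ) (fun s hs => by
      have := congrArg (fun X : H →L[ℂ] H => X ξ) (hQs s hs)
      simp only [mul_apply_eq_comp, map_sub] at this ⊢
      rw [this, sub_self])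
    rw [map_sub, sub_eq_zero] at h4
    exact h4.symm
  have hQT : Q * T = T := by
    have := congrArg star hTQ
    rwa [star_mul, hTsa, hQsa] at this
  have hqe : q = t + T := by rw [ht]; abel
  have hfin : Q * q = q := by
    rw [hqe, mul_add, hQt, hQT]
  rw [← hQ, ← hQq, hfin]

end

end Pool.Agent.W85.WDX
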